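import Pool.Agent.helper82.LEQ.Spec

/-!
# LEQ, row LM: the Lefschetz number as a sum of Moebius functions
-/

set_option autoImplicit false

namespace LEQ

open scoped BigOperators
open QS (Lef EAb)

theorem LM_XS_congr {α : Type} [PartialOrder α] [Finite α] {P Q : α → Prop} (h : ∀ x, P x ↔ Q x) :
    XS P = XS Q := by
  have : P = Q := funext fun x => propext (h x)
  rw [this]

theorem LM_Lef {G : Type} [Group G] [Finite G] (p : ℕ) (g : G) :
    Lef G p g = XS (fun E : Subgroup G => E ≠ ⊥ ∧ EAb p E ∧ Stb g E) := by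
  unfold Lef XS FS
  have h1 := finsum_mem_eq_finite_toFinset_sum (fun s : Finset (Subgroup G) => (-1 : ℤ) ^ (s.card + 1))
    (Set.toFinite {s : Finset (Subgroup G) | IsChain (· ≤ ·) (s : Set (Subgroup G)) ∧
      ∀ E ∈ s, E ≠ ⊥ ∧ EAb p E ∧ Stb g E})
  rw [← h1]
  apply finsum_congr
  intro s
  refine finsum_congr_Prop (propext ?_) (fun _ => rfl)
  constructor
  · rintro ⟨h2, h3⟩
    exact ⟨h2, fun E hE => ⟨(h3 E hE).1, ⟨(h3 E hE).2.1, (h3 E hE).2.2.1⟩, (h3 E hE).2.2.2⟩⟩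
  · rintro ⟨h2, h3⟩
    exact ⟨h2, fun E hE => ⟨(h3 E hE).1, (h3 E hE).2.1.1, (h3 E hE).2.1.2, (h3 E hE).2.2⟩⟩

theorem LM_EAb_bot {G : Type} [Group G] (p : ℕ) : EAb p (⊥ : Subgroup G) := by
  constructor
  · intro x hx y hy
    rw [Subgroup.mem_bot] at hx hy
    rw [hx, hy]
  · intro x hx
    rw [Subgroup.mem_bot] at hx
    rw [hx, one_pow]

theorem LM_Stb_bot {G : Type} [Group G] (g : G) : Stb g (⊥ : Subgroup G) := by
  intro x
  rw [Subgroup.mem_bot, Subgroup.mem_bot]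
  constructor
  · intro h
    rw [h]
    group
  · intro h
    have h2 : x = g⁻¹ * (g * x * g⁻¹) * g := by group
    rw [h2, h]
    group

theorem LM (h1 : XT_stmt) : LM_stmt := by
  classical
  intro G _ _ p g
  rw [LM_Lef, h1]
  have h2 : ∀ E ∈ FS (fun E : Subgroup G => E ≠ ⊥ ∧ EAb p E ∧ Stb g E),
      XS (fun F : Subgroup G => (F ≠ ⊥ ∧ EAb p F ∧ Stb g F) ∧ F < E) = Mb g E := by
    intro E hE
    rw [mem_FS] at hE
    unfold Mb
    rw [if_neg hE.1]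
    apply LM_XS_congr
    intro F
    constructor
    · rintro ⟨⟨h3, _, h4⟩, h5⟩
      exact ⟨h3, h5, h4⟩
    · rintro ⟨h3, h5, h4⟩
      exact ⟨⟨h3, ⟨fun x hx y hy => hE.2.1.1 x (h5.le hx) y (h5.le hy),
        fun x hx => hE.2.1.2 x (h5.le hx)⟩, h4⟩, h5⟩
  rw [Finset.sum_congr rfl h2]
  have h3 : FS (fun E : Subgroup G => E ≤ ⊤ ∧ EAb p E ∧ Stb g E)
      = insert ⊥ (FS (fun E : Subgroup G => E ≠ ⊥ ∧ EAb p E ∧ Stb g E)) := by
    ext E
    rw [Finset.mem_insert, mem_FS, mem_FS]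
    constructor
    · rintro ⟨_, h4, h5⟩
      by_cases h6 : E = ⊥
      · exact Or.inl h6
      · exact Or.inr ⟨h6, h4, h5⟩
    · rintro (h6 | ⟨_, h4, h5⟩)
      · rw [h6]
        exact ⟨le_top, LM_EAb_bot p, LM_Stb_bot g⟩
      · exact ⟨le_top, h4, h5⟩
  have h4 : (⊥ : Subgroup G) ∉ FS (fun E : Subgroup G => E ≠ ⊥ ∧ EAb p E ∧ Stb g E) := by
    rw [mem_FS]
    intro h5
    exact h5.1 rfl
  have h5 : Mb g (⊥ : Subgroup G) = 1 := by
    unfold Mb
    rw [if_pos rfl]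
  unfold Ls
  rw [h3, Finset.sum_insert h4, h5]
  ring

end LEQ
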